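import Pool.Agent.Run7.h970.ND.Stm

/-! Project ND (helper970), piece JOIN (helper24). -/

set_option autoImplicit false

namespace Pool.Agent.Run7.h24.ND

open SimpleGraph Pool.Agent.Run7.h970.ND

theorem join_reach (V : Type) (H : SimpleGraph V) (A : Finset ℕ) (x y : ℕ → V)
    (hx : ∀ a ∈ A, ∀ c ∈ A, a ≠ c → ¬ H.Reachable (x a) (x c))
    (hy : ∀ a ∈ A, ∀ c ∈ A, a ≠ c → ¬ H.Reachable (y a) (y c))
    (hxy : ∀ a ∈ A, ∀ c ∈ A, ¬ H.Reachable (x a) (y c)) (v z : V)
    (h : (H ⊔ fromEdgeSet {e | ∃ a ∈ A, e = s(x a, y a)}).Reachable v z) :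
    H.Reachable v z ∨ ∃ a ∈ A, (H.Reachable (x a) v ∨ H.Reachable (y a) v) ∧
      (H.Reachable (x a) z ∨ H.Reachable (y a) z) := by
  obtain ⟨p⟩ := h
  induction p with
  | nil => exact Or.inl (Reachable.refl _)
  | @cons v v' z hadj q ih =>
    rw [sup_adj, fromEdgeSet_adj] at hadj
    rcases hadj with hadj | ⟨⟨a, ha, hva⟩, hne⟩
    · have h1 : H.Reachable v v' := hadj.reachable
      rcases ih with h2 | ⟨c, hc, h2, h3⟩
      · exact Or.inl (h1.trans h2)
      · refine Or.inr ⟨c, hc, ?_, h3⟩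
        rcases h2 with h2 | h2
        · exact Or.inl (h2.trans h1.symm)
        · exact Or.inr (h2.trans h1.symm)
    · have hv : v = x a ∨ v = y a := by
        rcases Sym2.eq_iff.1 hva with ⟨e1, _⟩ | ⟨e1, _⟩
        · exact Or.inl e1
        · exact Or.inr e1
      have hv' : v' = x a ∨ v' = y a := by
        rcases Sym2.eq_iff.1 hva with ⟨_, e1⟩ | ⟨_, e1⟩
        · exact Or.inr e1
        · exact Or.inl e1
      have hv1 : H.Reachable (x a) v ∨ H.Reachable (y a) v := by
        rcases hv with e | e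
        · exact Or.inl (e ▸ Reachable.refl _)
        · exact Or.inr (e ▸ Reachable.refl _)
      right
      rcases ih with h2 | ⟨c, hc, h2, h3⟩
      · refine ⟨a, ha, hv1, ?_⟩
        rcases hv' with e | e
        · exact Or.inl (e ▸ h2)
        · exact Or.inr (e ▸ h2)
      · by_cases hac : a = c
        · subst hac
          exact ⟨a, ha, hv1, h3⟩
        · exfalso
          rcases hv' with e | e
          · rcases h2 with h2 | h2
            · exact hx a ha c hc hac (e ▸ h2.symm)
            · exact hxy a ha c hc (e ▸ h2.symm)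
          · rcases h2 with h2 | h2
            · exact hxy c hc a ha (e ▸ h2)
            · exact hy a ha c hc hac (e ▸ h2.symm)

theorem t_JOIN : S_JOIN := by
  intro V _ H A x y hH hx hy hxy
  refine ⟨?_, join_reach V H A x y hx hy hxy⟩
  induction A using Finset.induction_on with
  | empty =>
    have h : (H ⊔ fromEdgeSet {e | ∃ a ∈ (∅ : Finset ℕ), e = s(x a, y a)}) = H := by
      ext v z
      rw [sup_adj, fromEdgeSet_adj]
      simp
    rw [h]
    exact hH
  | insert a A ha ih =>
    have hx' : ∀ c ∈ A, ∀ d ∈ A, c ≠ d → ¬ H.Reachable (x c) (x d) := fun c hc d hd =>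
      hx c (Finset.mem_insert_of_mem hc) d (Finset.mem_insert_of_mem hd)
    have hy' : ∀ c ∈ A, ∀ d ∈ A, c ≠ d → ¬ H.Reachable (y c) (y d) := fun c hc d hd =>
      hy c (Finset.mem_insert_of_mem hc) d (Finset.mem_insert_of_mem hd)
    have hxy' : ∀ c ∈ A, ∀ d ∈ A, ¬ H.Reachable (x c) (y d) := fun c hc d hd =>
      hxy c (Finset.mem_insert_of_mem hc) d (Finset.mem_insert_of_mem hd)
    have h1 := ih hx' hy' hxy'
    have haA : a ∈ insert a A := Finset.mem_insert_self a A
    have h2 : ¬ (H ⊔ fromEdgeSet {e | ∃ a ∈ A, e = s(x a, y a)}).Reachable (x a) (y a) := by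
      intro hr
      rcases join_reach V H A x y hx' hy' hxy' _ _ hr with h3 | ⟨c, hc, h3, _⟩
      · exact hxy a haA a haA h3
      · have hca : c ≠ a := fun h => ha (h ▸ hc)
        have hc' := Finset.mem_insert_of_mem (b := a) hc
        rcases h3 with h3 | h3
        · exact hx c hc' a haA hca h3
        · exact hxy a haA c hc' h3.symm
    have h3 := h1.sup_edge_of_not_reachable h2
    have h4 : (H ⊔ fromEdgeSet {e | ∃ c ∈ insert a A, e = s(x c, y c)}) =
        (H ⊔ fromEdgeSet {e | ∃ a ∈ A, e = s(x a, y a)}) ⊔ edge (x a) (y a) := by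
      ext v z
      simp only [sup_adj, fromEdgeSet_adj, edge, Set.mem_setOf_eq, Finset.mem_insert,
        Set.mem_singleton_iff]
      constructor
      · rintro (h | ⟨⟨c, hc | hc, h⟩, hne⟩)
        · exact Or.inl (Or.inl h)
        · subst hc
          exact Or.inr ⟨h, hne⟩
        · exact Or.inl (Or.inr ⟨⟨c, hc, h⟩, hne⟩)
      · rintro ((h | ⟨⟨c, hc, h⟩, hne⟩) | ⟨h, hne⟩)
        · exact Or.inl h
        · exact Or.inr ⟨⟨c, Or.inr hc, h⟩, hne⟩
        · exact Or.inr ⟨⟨a, Or.inl rfl, h⟩, hne⟩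
    rw [h4]
    exact h3

end Pool.Agent.Run7.h24.ND
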