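import Pool.Agent.Run7.h970.ND.Stm

/-! Project ND (helper970), piece LEX (helper24). -/

set_option autoImplicit false

namespace Pool.Agent.Run7.h24.ND

open SimpleGraph Pool.Agent.Run7.h970.ND

theorem exists_min {α : Type*} (p : α → Prop) (f : α → ℕ) (h : ∃ a, p a) :
    ∃ a, p a ∧ ∀ b, p b → f a ≤ f b := by
  classical
  have h' : ∃ n, ∃ a, p a ∧ f a = n := by
    obtain ⟨a, ha⟩ := h
    exact ⟨f a, a, ha, rfl⟩
  obtain ⟨a, ha, hn⟩ := Nat.find_spec h'
  exact ⟨a, ha, fun b hb => hn ▸ Nat.find_min' h' ⟨b, hb, rfl⟩⟩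

theorem rt_congr {V : Type} (r : V) (w w' : ℕ → V) (c : ℕ) (h : ∀ a, a < c → w' a = w a) :
    rt r w' c = rt r w c := by
  cases c with
  | zero => rfl
  | succ c => exact h c (Nat.lt_succ_self c)

theorem St_congr {V : Type} (R : SimpleGraph V) (r : V) (w w' : ℕ → V) (a : ℕ)
    (h : ∀ c, c < a → w' c = w c) : St R r w' a = St R r w a := by
  ext v
  constructor
  · rintro ⟨c, hc, hv⟩
    rw [rt_congr r w w' c (fun d hd => h d (by omega))] at hv
    exact ⟨c, hc, hv⟩
  · rintro ⟨c, hc, hv⟩
    rw [← rt_congr r w w' c (fun d hd => h d (by omega))] at hv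
    exact ⟨c, hc, hv⟩

theorem St_mono {V : Type} (R : SimpleGraph V) (r : V) (w : ℕ → V) (a : ℕ) :
    St R r w a ⊆ St R r w (a + 1) := by
  rintro v ⟨c, hc, hv⟩
  exact ⟨c, by omega, hv⟩

theorem leg_card {V ι : Type} [Fintype V] (F : ι → SimpleGraph V) (R : SimpleGraph V) (r : V)
    (u w : ℕ → V) (β : ℕ → ι) (l : ℕ) (h : Leg F R r u w β l) :
    ∀ a, a ≤ l → a + 1 ≤ (St R r w a).ncard := by
  intro a
  induction a with
  | zero =>
    intro _
    have : r ∈ St R r w 0 := ⟨0, le_rfl, SimpleGraph.Reachable.refl _⟩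
    exact (Set.ncard_pos (Set.toFinite _)).2 ⟨r, this⟩
  | succ a ih =>
    intro ha
    have h1 := ih (by omega)
    have h2 := (h a (by omega)).2.1
    have h3 : w a ∈ St R r w (a + 1) := ⟨a + 1, le_rfl, SimpleGraph.Reachable.refl _⟩
    have h4 : St R r w a ⊂ St R r w (a + 1) :=
      (Set.ssubset_iff_of_subset (St_mono R r w a)).2 ⟨w a, h3, h2⟩
    have h5 := Set.ncard_lt_ncard h4 (Set.toFinite _)
    omega

theorem t_LEX : S_LEX := by
  intro V _ ι _ _ r C hC
  classical
  -- the recursion
  have key : ∀ n l : ℕ, l + n = Fintype.card V →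
      (∃ (T : ι → SimpleGraph V) (R : SimpleGraph V) (u w : ℕ → V) (β : ℕ → ι),
        C T R ∧ Leg T R r u w β l ∧
        ∀ T' R' l', C T' R' → l' ≤ l → Leg T' R' r u w β l' →
          (∀ a, a < l' → St R' r w a = St R r w a) →
          (St R r w l').ncard ≤ (St R' r w l').ncard) →
      ∃ (T : ι → SimpleGraph V) (R : SimpleGraph V) (u w : ℕ → V) (β : ℕ → ι) (L : ℕ),
        C T R ∧ Leg T R r u w β L ∧
        (∀ x ∈ St R r w L, ∀ b y, Par (T b) r x y → y ∈ St R r w L) ∧
        ∀ T' R' l', C T' R' → l' ≤ L → Leg T' R' r u w β l' →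
          (∀ a, a < l' → St R' r w a = St R r w a) →
          (St R r w l').ncard ≤ (St R' r w l').ncard := by
    intro n
    induction n with
    | zero =>
      rintro l hl ⟨T, R, u, w, β, hTR, hleg, _⟩
      exfalso
      have h1 := leg_card T R r u w β l hleg l le_rfl
      have h2 : (St R r w l).ncard ≤ Fintype.card V := by
        rw [← Nat.card_eq_fintype_card, ← Set.ncard_univ]
        exact Set.ncard_le_ncard (Set.subset_univ _) (Set.toFinite _)
      omega
    | succ n ih =>
      rintro l hl ⟨T, R, u, w, β, hTR, hleg, hmin⟩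
      by_cases hcl : ∀ x ∈ St R r w l, ∀ b y, Par (T b) r x y → y ∈ St R r w l
      · exact ⟨T, R, u, w, β, l, hTR, hleg, hcl, hmin⟩
      · push Not at hcl
        obtain ⟨x, hx, b, y, hxy, hy⟩ := hcl
        let u' : ℕ → V := fun a => if a = l then x else u a
        let w' : ℕ → V := fun a => if a = l then y else w a
        let β' : ℕ → ι := fun a => if a = l then b else β a
        have hw' : ∀ a, a < l → w' a = w a := fun a ha => if_neg (by omega)
        have hu' : ∀ a, a < l → u' a = u a := fun a ha => if_neg (by omega)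
        have hβ' : ∀ a, a < l → β' a = β a := fun a ha => if_neg (by omega)
        have hSt : ∀ (R0 : SimpleGraph V) (a : ℕ), a ≤ l → St R0 r w' a = St R0 r w a :=
          fun R0 a ha => St_congr R0 r w w' a (fun c hc => hw' c (by omega))
        have hLeg : ∀ (T0 : ι → SimpleGraph V) (R0 : SimpleGraph V) (l' : ℕ), l' ≤ l →
            (Leg T0 R0 r u' w' β' l' ↔ Leg T0 R0 r u w β l') := by
          intro T0 R0 l' hl'
          constructor
          · intro h a ha
            have := h a ha
            rw [hSt R0 a (by omega), hu' a (by omega), hw' a (by omega), hβ' a (by omega)] at this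
            exact this
          · intro h a ha
            have := h a ha
            rw [← hSt R0 a (by omega), ← hu' a (by omega), ← hw' a (by omega),
              ← hβ' a (by omega)] at this
            exact this
        have hself : Leg T R r u' w' β' (l + 1) := by
          intro a ha
          by_cases hal : a = l
          · subst hal
            have e1 : u' a = x := if_pos rfl
            have e2 : w' a = y := if_pos rfl
            have e3 : β' a = b := if_pos rfl
            rw [e1, e2, e3, hSt R a le_rfl]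
            exact ⟨hx, hy, hxy⟩
          · exact (hLeg T R l le_rfl).2 hleg a (by omega)
        obtain ⟨⟨T1, R1⟩, ⟨hC1, hleg1, hSt1⟩, hmin1⟩ := exists_min
          (fun q : (ι → SimpleGraph V) × SimpleGraph V => C q.1 q.2 ∧
            Leg q.1 q.2 r u' w' β' (l + 1) ∧ ∀ a, a ≤ l → St q.2 r w' a = St R r w' a)
          (fun q => (St q.2 r w' (l + 1)).ncard) ⟨(T, R), hTR, hself, fun a _ => rfl⟩
        apply ih (l + 1) (by omega)
        refine ⟨T1, R1, u', w', β', hC1, hleg1, ?_⟩
        intro T' R' l' hC' hl' hleg' hSt'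
        rcases Nat.lt_or_ge l l' with hlt | hge
        · have hl'' : l' = l + 1 := by omega
          subst hl''
          exact hmin1 (T', R') ⟨hC', hleg', fun a ha => by
            rw [hSt' a (by omega), hSt1 a ha]⟩
        · have h1 := hmin T' R' l' hC' hge ((hLeg T' R' l' hge).1 hleg') (fun a ha => by
            rw [← hSt R' a (by omega), hSt' a ha, hSt1 a (by omega), hSt R a (by omega)])
          have h2 := hSt1 l' hge
          change St R1 r w' l' = St R r w' l' at h2
          rw [h2, hSt R l' hge, hSt R' l' hge]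
          exact h1
  -- the start
  apply key (Fintype.card V) 0 (by omega)
  obtain ⟨T0, R0, h0⟩ := hC
  obtain ⟨⟨T, R⟩, hTR, hmin⟩ := exists_min
    (fun q : (ι → SimpleGraph V) × SimpleGraph V => C q.1 q.2)
    (fun q => (St q.2 r (fun _ => r) 0).ncard) ⟨(T0, R0), h0⟩
  refine ⟨T, R, fun _ => r, fun _ => r, fun _ => Classical.arbitrary ι, hTR,
    fun a ha => absurd ha (Nat.not_lt_zero a), ?_⟩
  intro T' R' l' hC' hl' _ _
  have hl0 : l' = 0 := by omega
  subst hl0
  exact hmin (T', R') hC'

end Pool.Agent.Run7.h24.ND
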